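import Mathlib
import Pool.Agent.H525.EX.Stm5
import Pool.Agent.H166.EX.LAT

/-!
# Project EX (helper525), task LAT2 (helper16, from helper166): weighted lattice sums, first kind
-/

set_option autoImplicit false

namespace Pool.Agent.H16.EX

open Polynomial
open Pool.Agent.H525.QF Pool.Agent.H525.EX
open Pool.Agent.H166.EX (dvd_of_sq exists_cop cop_unique mem_lt_mul mem_mon_mul)
open scoped Classical

section

variable {K : Type} [Field K]

theorem F2_mul (D v1 v2 : K[X]) : F2 (D * v1, D * v2) = D ^ 4 * F2 (v1, v2) := by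
  unfold F2
  ring

theorem F2_sqf [CharP K 2] {v : K[X] × K[X]} (hv : IsCoprime v.1 v.2) : Squarefree (F2 v) := by
  have h4 : ((4 : ℕ) : K) = 0 := by
    rw [CharP.cast_eq_zero_iff K 2]
    norm_num
  have h2 : ((2 : ℕ) : K) = 0 := by
    rw [CharP.cast_eq_zero_iff K 2]
  have hd : derivative (F2 v) = v.2 ^ 4 := by
    unfold F2
    rw [derivative_add, derivative_mul, derivative_add, derivative_X, derivative_X_pow,
      derivative_pow, derivative_pow, h4, h2]
    simp
  have hs : (F2 v).Separable := by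
    unfold Polynomial.Separable
    rw [hd]
    unfold F2
    exact (hv.pow (m := 4) (n := 4)).add_mul_right_left (X ^ 2 + X)
  exact hs.squarefree

theorem cond_iff2 [CharP K 2] {b g G v1 v2 : K[X]} (hb : Squarefree b) (hg : g ≠ 0) :
    g ^ 2 * b ∣ (g * G) ^ 2 * F2 (v1, v2) ↔ b ∣ F2 (G * v1, G * v2) := by
  rw [F2_mul, mul_pow, mul_assoc, mul_dvd_mul_iff_left (pow_ne_zero 2 hg)]
  constructor
  · intro h
    refine h.trans ?_
    exact mul_dvd_mul_right (pow_dvd_pow G (by norm_num)) _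
  · intro h
    have h1 : b ∣ (G * F2 (v1, v2)) ^ 4 := by
      refine h.trans ?_
      rw [mul_pow]
      exact mul_dvd_mul_left _ (dvd_pow_self _ (by norm_num))
    have h2 : b ∣ G * F2 (v1, v2) := (hb.dvd_pow_iff_dvd (by norm_num)).1 h1
    refine h2.trans ?_
    exact mul_dvd_mul_right (dvd_pow_self G (by norm_num)) _

/-- top coefficients -/
theorem coeff_top [Fintype K] {D p : K[X]} {a e : ℕ} (hD : D.Monic) (hp : p ∈ lt K (e + 1))
    (ha : a = D.natDegree + e) : (D * p).coeff a = p.coeff e := by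
  rw [mem_lt] at hp
  have h1 : p.natDegree ≤ e := by
    by_cases h0 : p = 0
    · rw [h0]
      simp
    · rw [degree_eq_natDegree h0] at hp
      have h2 : p.natDegree < e + 1 := by exact_mod_cast hp
      omega
  rw [ha, coeff_mul_add_eq_of_natDegree_le le_rfl h1, hD.coeff_natDegree, one_mul]

end

theorem t_lat2 : S_lat2 := by
  intro K _ _ _ ω n i b g hbm hb hg
  rw [mem_mon] at hg
  obtain ⟨hgm, hgi⟩ := hg
  have hg0 := hgm.ne_zero
  -- the set on the left
  have hL : ∑ j ∈ Finset.range (n + 1), ∑ G ∈ mon K j,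
      ∑ v ∈ (cI K (n - j)).filter (fun v => g ^ 2 * b ∣ G ^ 2 * F2 v), ω (v.1.coeff (n - j)) =
      ∑ t ∈ (Finset.range (n + 1)).sigma (fun j => (mon K j).sigma (fun G =>
        (cI K (n - j)).filter (fun v => g ^ 2 * b ∣ G ^ 2 * F2 v))),
          ω (t.2.2.1.coeff (n - t.1)) := by
    rw [Finset.sum_sigma]
    refine Finset.sum_congr rfl (fun j _ => ?_)
    rw [Finset.sum_sigma]
  rw [hL]
  -- membership
  have hmem : ∀ t : (Σ _ : ℕ, Σ _ : K[X], K[X] × K[X]),
      t ∈ ((Finset.range (n + 1)).sigma (fun j => (mon K j).sigma (fun G =>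
        (cI K (n - j)).filter (fun v => g ^ 2 * b ∣ G ^ 2 * F2 v)))) →
      ∃ G' : K[X], t.2.1 = g * G' ∧ G'.Monic ∧ t.1 = i + G'.natDegree ∧ t.1 ≤ n ∧
        IsCoprime t.2.2.1 t.2.2.2 ∧ t.2.2.1 ∈ lt K (n - t.1 + 1) ∧ t.2.2.2 ∈ mon K (n - t.1) ∧
        b ∣ F2 (G' * t.2.2.1, G' * t.2.2.2) := by
    rintro ⟨j, G, v⟩ ht
    rw [Finset.mem_sigma, Finset.mem_sigma, Finset.mem_filter, Finset.mem_range, mem_mon] at ht
    obtain ⟨h1, ⟨h2, h3⟩, h4, h5⟩ := ht
    unfold cI at h4
    rw [Finset.mem_filter, Finset.mem_product] at h4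
    obtain ⟨⟨h6, h7⟩, h8⟩ := h4
    simp only at h1 h2 h3 h5 h6 h7 h8 ⊢
    have hgG : g ∣ G := dvd_of_sq hg0 (F2_sqf h8) ((dvd_mul_right (g ^ 2) b).trans h5)
    obtain ⟨G', rfl⟩ := hgG
    have hG' : G'.Monic := hgm.of_mul_monic_left h2
    refine ⟨G', rfl, hG', ?_, by omega, h8, h6, h7, ?_⟩
    · rw [← h3, hgm.natDegree_mul hG', hgi]
    · exact (cond_iff2 hb hg0).1 h5
  split_ifs with hin
  · unfold A1
    refine Finset.sum_bij (fun t _ => ((t.2.1 / g) * t.2.2.1, (t.2.1 / g) * t.2.2.2)) ?_ ?_ ?_ ?_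
    · intro t ht
      obtain ⟨G', e1, e2, e3, e4, e5, e6, e7, e8⟩ := hmem t ht
      have e9 : t.2.1 / g = G' := by
        rw [e1, mul_div_cancel_left₀ _ hg0]
      rw [e9, Finset.mem_filter, Finset.mem_product]
      refine ⟨⟨?_, ?_⟩, e8⟩
      · rw [mem_lt_mul e2 rfl (by omega)]
        rw [show n - i - G'.natDegree + 1 = n - t.1 + 1 by omega]
        exact e6
      · rw [mem_mon_mul e2 rfl (by omega)]
        rw [show n - i - G'.natDegree = n - t.1 by omega]
        exact e7
    · rintro ⟨j, G, v⟩ ht ⟨j', G1, v'⟩ ht' hh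
      obtain ⟨G', e1, e2, e3, e4, e5, e6, e7, e8⟩ := hmem _ ht
      obtain ⟨G'', f1, f2, f3, f4, f5, f6, f7, f8⟩ := hmem _ ht'
      simp only at e1 e3 e5 f1 f3 f5 hh
      subst e1
      subst f1
      rw [mul_div_cancel_left₀ _ hg0, mul_div_cancel_left₀ _ hg0, Prod.mk.injEq] at hh
      obtain ⟨k1, k2, k3⟩ := cop_unique e2 f2 e5 f5 hh.1 hh.2
      subst k1
      have k4 : j = j' := by omega
      subst k4
      have k5 : v = v' := Prod.ext k2 k3
      subst k5
      rfl
    · intro w hw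
      rw [Finset.mem_filter, Finset.mem_product] at hw
      obtain ⟨⟨h1, h2⟩, h3⟩ := hw
      have h2' := mem_mon.1 h2
      obtain ⟨D, v1, v2, hD, hc, hx, hy⟩ := exists_cop (x := w.1) h2'.1.ne_zero
      have hv2 : v2.Monic := by
        have := h2'.1
        rw [hy] at this
        exact hD.of_mul_monic_left this
      have hdeg : D.natDegree + v2.natDegree = n - i := by
        rw [← hD.natDegree_mul hv2, ← hy]
        exact h2'.2
      rw [hx, mem_lt_mul hD rfl (by omega)] at h1
      rw [hy, mem_mon_mul hD rfl (by omega)] at h2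
      have hwe : w = (D * v1, D * v2) := Prod.ext hx hy
      refine ⟨⟨i + D.natDegree, g * D, (v1, v2)⟩, ?_, ?_⟩
      · rw [Finset.mem_sigma, Finset.mem_sigma, Finset.mem_filter, Finset.mem_range, mem_mon]
        refine ⟨by simp only; omega, ⟨hgm.mul hD, ?_⟩, ?_, ?_⟩
        · simp only
          rw [hgm.natDegree_mul hD, hgi]
        · unfold cI
          rw [Finset.mem_filter, Finset.mem_product]
          simp only
          rw [show n - (i + D.natDegree) = n - i - D.natDegree by omega]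
          exact ⟨⟨h1, h2⟩, hc⟩
        · simp only
          rw [cond_iff2 hb hg0, ← hwe]
          exact h3
      · simp only
        rw [mul_div_cancel_left₀ _ hg0, hwe]
    · intro t ht
      obtain ⟨G', e1, e2, e3, e4, e5, e6, e7, e8⟩ := hmem t ht
      have e9 : t.2.1 / g = G' := by
        rw [e1, mul_div_cancel_left₀ _ hg0]
      simp only
      rw [e9, coeff_top e2 e6 (by omega)]
  · have he : (Finset.range (n + 1)).sigma (fun j => (mon K j).sigma (fun G =>
        (cI K (n - j)).filter (fun v => g ^ 2 * b ∣ G ^ 2 * F2 v))) = ∅ := by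
      rw [Finset.eq_empty_iff_forall_notMem]
      intro t ht
      obtain ⟨G', e1, e2, e3, e4, -⟩ := hmem t ht
      omega
    rw [he, Finset.sum_empty]

end Pool.Agent.H16.EX
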